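import Mathlib

/-!
# Finite subposets realising the Helly number: posets of width at most two (MP_0878ad_co)
-/

set_option autoImplicit false

open Set

namespace Pool.Agent.Results.MP_0878ad_co.WidthTwo

universe u

variable {X : Type u} [PartialOrder X]

/-- `S` is partitionable in `F` (a subset of `X` with the induced order): some `x ∈ F` has at least two
distinct points of `S` above it and at least two distinct points of `S` below it. -/
def PartitionableIn (F S : Set X) : Prop :=
  ∃ x ∈ F, (∃ s₁ ∈ S, ∃ s₂ ∈ S, s₁ ≠ s₂ ∧ x ≤ s₁ ∧ x ≤ s₂) ∧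
    (∃ t₁ ∈ S, ∃ t₂ ∈ S, t₁ ≠ t₂ ∧ t₁ ≤ x ∧ t₂ ≤ x)

/-- The Helly number of `F` (with the induced order): the supremum of the sizes of its
nonpartitionable subsets. -/
noncomputable def helly (F : Set X) : ℕ∞ :=
  ⨆ (S : Set X) (_ : S ⊆ F ∧ ¬ PartitionableIn F S), S.encard

lemma PartitionableIn.mono {F S T : Set X} (h : S ⊆ T) (hS : PartitionableIn F S) :
    PartitionableIn F T := by
  obtain ⟨x, hx, ⟨s₁, h1, s₂, h2, h3⟩, t₁, h4, t₂, h5, h6⟩ := hS
  exact ⟨x, hx, ⟨s₁, h h1, s₂, h h2, h3⟩, t₁, h h4, t₂, h h5, h6⟩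

lemma PartitionableIn.mono_left {F G S : Set X} (h : F ⊆ G) (hS : PartitionableIn F S) :
    PartitionableIn G S := by
  obtain ⟨x, hx, h'⟩ := hS
  exact ⟨x, h hx, h'⟩

lemma chain3 {F S : Set X} {a b c : X} (ha : a ∈ S) (hb : b ∈ S) (hc : c ∈ S) (hF : b ∈ F)
    (hab : a < b) (hbc : b < c) : PartitionableIn F S :=
  ⟨b, hF, ⟨b, hb, c, hc, hbc.ne, le_rfl, hbc.le⟩, a, ha, b, hb, hab.ne, hab.le, le_rfl⟩

lemma le_helly {F S : Set X} (h : S ⊆ F) (hS : ¬ PartitionableIn F S) : S.encard ≤ helly F :=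
  le_iSup₂_of_le S ⟨h, hS⟩ le_rfl

lemma helly_le {F : Set X} {n : ℕ}
    (h : ∀ S : Finset X, (S : Set X) ⊆ F → S.card = n + 1 → PartitionableIn F (S : Set X)) :
    helly F ≤ n := by
  refine iSup₂_le fun S hS => ?_
  by_contra hc
  have h1 : ((n + 1 : ℕ) : ℕ∞) ≤ S.encard := by
    have := not_le.1 hc
    exact_mod_cast Order.add_one_le_of_lt this
  obtain ⟨T, hT, hTc⟩ := Set.exists_subset_encard_eq h1
  have hfin : T.Finite := Set.finite_of_encard_eq_coe hTc
  refine hS.2 ((h hfin.toFinset ?_ ?_).mono ?_)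
  · simpa using hT.trans hS.1
  · have : (hfin.toFinset.card : ℕ∞) = ((n + 1 : ℕ) : ℕ∞) := by
      rw [← hTc, hfin.encard_eq_coe_toFinset_card]
    exact_mod_cast this
  · simpa using hT

lemma attained {F : Set X} {n : ℕ} (h : helly F = n) :
    ∃ S : Finset X, (S : Set X) ⊆ F ∧ ¬ PartitionableIn F (S : Set X) ∧ n ≤ S.card := by
  rcases n with _ | m
  · exact ⟨∅, by simp, by rintro ⟨x, _, ⟨s, hs, _⟩, _⟩; simp at hs, by simp⟩
  · by_contra hc
    push Not at hc
    have : helly F ≤ m := by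
      apply helly_le
      intro S hS hcard
      by_contra hp
      have := hc S hS hp
      omega
    rw [h] at this
    have h2 : (m + 1 : ℕ) ≤ m := by exact_mod_cast this
    omega

/-- no three-element chain: at most `2 w` elements -/
lemma card_le {F : Set X} {w : ℕ}
    (hw : ∀ A : Finset X, IsAntichain (· ≤ ·) (A : Set X) → A.card ≤ w)
    (S : Finset X) (hS : (S : Set X) ⊆ F) (hp : ¬ PartitionableIn F (S : Set X)) :
    S.card ≤ 2 * w := by
  classical
  have hA : (S.filter (fun a => ∀ b ∈ S, ¬ b < a)).card ≤ w := by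
    apply hw
    intro a ha b hb hne hle
    simp only [Finset.coe_filter, Set.mem_ofPred_eq] at ha hb
    exact hb.2 a ha.1 (lt_of_le_of_ne hle hne)
  have hB : (S.filter (fun a => ¬ ∀ b ∈ S, ¬ b < a)).card ≤ w := by
    apply hw
    intro a ha b hb hne hle
    simp only [Finset.coe_filter, Set.mem_ofPred_eq, not_forall, not_not] at ha hb
    obtain ⟨c, hc, hca⟩ := ha.2
    exact hp (chain3 (Finset.mem_coe.2 hc) (Finset.mem_coe.2 ha.1) (Finset.mem_coe.2 hb.1)
      (hS (Finset.mem_coe.2 ha.1)) hca (lt_of_le_of_ne hle hne))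
  have := Finset.card_filter_add_card_filter_not (s := S) (fun a => ∀ b ∈ S, ¬ b < a)
  omega

/-- lower bound from a set that realises `h(X)` -/
lemma lower {n : ℕ} (S : Finset X)
    (hp : ¬ PartitionableIn (univ : Set X) (S : Set X)) (hc : n ≤ S.card)
    {F : Set X} (hF : (S : Set X) ⊆ F) : (n : ℕ∞) ≤ helly F := by
  have h1 : ¬ PartitionableIn F (S : Set X) := fun h' => hp (h'.mono_left (subset_univ _))
  refine le_trans ?_ (le_helly hF h1)
  rw [Set.encard_coe_eq_coe_finsetCard]
  exact_mod_cast hc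

/-- first part: the case `h(X) = 2 w` -/
theorem maximal_case {w : ℕ} (hw : ∀ A : Finset X, IsAntichain (· ≤ ·) (A : Set X) → A.card ≤ w)
    (h : helly (univ : Set X) = (2 * w : ℕ)) (E : Finset X) :
    ∃ F : Finset X, E ⊆ F ∧ helly (F : Set X) = helly (univ : Set X) := by
  classical
  obtain ⟨S, -, hp, hc⟩ := attained h
  refine ⟨E ∪ S, Finset.subset_union_left, ?_⟩
  rw [h]
  apply le_antisymm
  · apply helly_le
    intro T hT hcard
    by_contra hp'
    have := card_le hw T hT hp'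
    omega
  · exact lower S hp hc (by simp)

/-- a path of length three in the incomparability graph is nonpartitionable -/
lemma path4 {p q r s : X} (hpq : ¬ p ≤ q ∧ ¬ q ≤ p) (hqr : ¬ q ≤ r ∧ ¬ r ≤ q)
    (hrs : ¬ r ≤ s ∧ ¬ s ≤ r) : ¬ PartitionableIn (univ : Set X) {p, q, r, s} := by
  rintro ⟨x, -, ⟨s₁, h1, s₂, h2, h3, h4, h5⟩, t₁, g1, t₂, g2, g3, g4, g5⟩
  have k1 := g4.trans h4
  have k2 := g4.trans h5
  have k3 := g5.trans h4
  have k4 := g5.trans h5
  clear h4 h5 g4 g5
  simp only [mem_insert_iff, mem_singleton_iff] at h1 h2 g1 g2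
  rcases h1 with rfl | rfl | rfl | rfl <;> rcases h2 with rfl | rfl | rfl | rfl <;>
    rcases g1 with rfl | rfl | rfl | rfl <;> rcases g2 with rfl | rfl | rfl | rfl <;>
    first
    | exact h3 rfl
    | exact g3 rfl
    | (exfalso; tauto)
    | exact absurd (le_antisymm k1 k4) (by tauto)
    | grind [le_antisymm]

/-- an antichain of three elements and any fourth element -/
lemma anti4 {p q r s : X} (hpq : ¬ p ≤ q ∧ ¬ q ≤ p) (hqr : ¬ q ≤ r ∧ ¬ r ≤ q)
    (hpr : ¬ p ≤ r ∧ ¬ r ≤ p) : ¬ PartitionableIn (univ : Set X) {p, q, r, s} := by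
  rintro ⟨x, -, ⟨s₁, h1, s₂, h2, h3, h4, h5⟩, t₁, g1, t₂, g2, g3, g4, g5⟩
  have k1 := g4.trans h4
  have k2 := g4.trans h5
  have k3 := g5.trans h4
  have k4 := g5.trans h5
  clear h4 h5 g4 g5
  simp only [mem_insert_iff, mem_singleton_iff] at h1 h2 g1 g2
  rcases h1 with rfl | rfl | rfl | rfl <;> rcases h2 with rfl | rfl | rfl | rfl <;>
    rcases g1 with rfl | rfl | rfl | rfl <;> rcases g2 with rfl | rfl | rfl | rfl <;>
    first
    | exact h3 rfl
    | exact g3 rfl
    | (exfalso; tauto)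
    | grind [le_antisymm]

lemma four (h3 : ∀ S : Finset X, S.card = 4 → PartitionableIn (univ : Set X) (S : Set X))
    {p q r s : X} (h1 : p ≠ q) (h2 : p ≠ r) (h3' : p ≠ s) (h4 : q ≠ r) (h5 : q ≠ s) (h6 : r ≠ s) :
    PartitionableIn (univ : Set X) ({p, q, r, s} : Set X) := by
  classical
  have := h3 {p, q, r, s} (by
    rw [Finset.card_insert_of_notMem, Finset.card_insert_of_notMem, Finset.card_insert_of_notMem,
      Finset.card_singleton] <;> simp [*])
  simpa using this

/-- a set without a witness in `F` has a witness that is comparable with all elements of `F` -/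
lemma step (h3 : ∀ S : Finset X, S.card = 4 → PartitionableIn (univ : Set X) (S : Set X))
    (F T : Finset X) (hT : T ⊆ F) (hc : T.card = 4)
    (hbad : ¬ PartitionableIn (F : Set X) (T : Set X)) :
    ∃ x, x ∉ F ∧ PartitionableIn (insert x (F : Set X)) (T : Set X) ∧ ∀ g ∈ F, g < x ∨ x < g := by
  obtain ⟨x, -, ⟨s₁, h1, s₂, h2, hs, h4, h5⟩, t₁, g1, t₂, g2, ht, g4, g5⟩ := h3 T hc
  have hxF : x ∉ F := fun hx => hbad ⟨x, hx, ⟨s₁, h1, s₂, h2, hs, h4, h5⟩, t₁, g1, t₂, g2, ht, g4, g5⟩
  have hTF : ∀ {y : X}, y ∈ (T : Set X) → y ∈ F := fun hy => hT hy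
  have ne : ∀ {y : X}, y ∈ (T : Set X) → y ≠ x := fun hy h => hxF (h ▸ hTF hy)
  have l1 : t₁ < x := lt_of_le_of_ne g4 (ne g1)
  have l2 : t₂ < x := lt_of_le_of_ne g5 (ne g2)
  have u1 : x < s₁ := lt_of_le_of_ne h4 (ne h1).symm
  have u2 : x < s₂ := lt_of_le_of_ne h5 (ne h2).symm
  have noc : ∀ {a b c : X}, a ∈ (T : Set X) → b ∈ (T : Set X) → c ∈ (T : Set X) → a < b → b < c →
      False := fun ha hb hc' hab hbc => hbad (chain3 ha hb hc' (hTF hb) hab hbc)
  have tt : ¬ t₁ ≤ t₂ ∧ ¬ t₂ ≤ t₁ :=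
    ⟨fun h => noc g1 g2 h1 (lt_of_le_of_ne h ht) (l2.trans u1),
     fun h => noc g2 g1 h1 (lt_of_le_of_ne h ht.symm) (l1.trans u1)⟩
  have ss : ¬ s₁ ≤ s₂ ∧ ¬ s₂ ≤ s₁ :=
    ⟨fun h => noc g1 h1 h2 (l1.trans u1) (lt_of_le_of_ne h hs),
     fun h => noc g1 h2 h1 (l1.trans u2) (lt_of_le_of_ne h hs.symm)⟩
  refine ⟨x, hxF, ⟨x, mem_insert _ _, ⟨s₁, h1, s₂, h2, hs, h4, h5⟩, t₁, g1, t₂, g2, ht, g4, g5⟩, ?_⟩
  intro g hg
  by_contra hcon
  push Not at hcon
  have gx : g ≠ x := fun h => hxF (h ▸ hg)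
  have n1 : ¬ g ≤ x := fun h => hcon.1 (lt_of_le_of_ne h gx)
  have n2 : ¬ x ≤ g := fun h => hcon.2 (lt_of_le_of_ne h gx.symm)
  have below : ∀ {a b : X}, a < x → b < x → (¬ a ≤ b ∧ ¬ b ≤ a) → a ≤ g := by
    intro a b ha hb hab
    by_contra hag
    have hga : ¬ g ≤ a := fun h => n1 (h.trans ha.le)
    refine path4 (p := b) (q := a) (r := g) (s := x) ⟨hab.2, hab.1⟩ ⟨hag, hga⟩ ⟨n1, n2⟩
      (four h3 ?_ ?_ hb.ne ?_ ha.ne gx)
    · rintro rfl; exact hab.1 le_rfl
    · rintro rfl; exact n1 hb.le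
    · rintro rfl; exact n1 ha.le
  have above : ∀ {a b : X}, x < a → x < b → (¬ a ≤ b ∧ ¬ b ≤ a) → g ≤ a := by
    intro a b ha hb hab
    by_contra hga
    have hag : ¬ a ≤ g := fun h => n2 (ha.le.trans h)
    refine path4 (p := b) (q := a) (r := g) (s := x) ⟨hab.2, hab.1⟩ ⟨hag, hga⟩ ⟨n1, n2⟩
      (four h3 ?_ ?_ hb.ne' ?_ ha.ne' gx)
    · rintro rfl; exact hab.1 le_rfl
    · rintro rfl; exact n2 hb.le
    · rintro rfl; exact n2 ha.le
  exact hbad ⟨g, hg, ⟨s₁, h1, s₂, h2, hs, above u1 u2 ss, above u2 u1 ⟨ss.2, ss.1⟩⟩,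
    t₁, g1, t₂, g2, ht, below l1 l2 tt, below l2 l1 ⟨tt.2, tt.1⟩⟩

open Classical in
/-- the four-element subsets of `F` that are nonpartitionable in `F` -/
noncomputable def badsets (F : Finset X) : Finset (Finset X) :=
  (F.powersetCard 4).filter (fun T => ¬ PartitionableIn (F : Set X) (T : Set X))

lemma badsets_insert (h3 : ∀ S : Finset X, S.card = 4 → PartitionableIn (univ : Set X) (S : Set X))
    (hw : ∀ A : Finset X, IsAntichain (· ≤ ·) (A : Set X) → A.card ≤ 2) :
    ∀ (n : ℕ) (F : Finset X), (badsets F).card ≤ n → ∃ G : Finset X, F ⊆ G ∧ badsets G = ∅ := by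
  classical
  intro n
  induction n with
  | zero =>
    intro F hF
    exact ⟨F, subset_rfl, by simpa using hF⟩
  | succ n ih =>
    intro F hF
    by_cases h0 : badsets F = ∅
    · exact ⟨F, subset_rfl, h0⟩
    obtain ⟨T, hT⟩ := Finset.nonempty_iff_ne_empty.2 h0
    have hT' := hT
    simp only [badsets, Finset.mem_filter, Finset.mem_powersetCard] at hT'
    obtain ⟨⟨hTF, hTc⟩, hTb⟩ := hT'
    obtain ⟨x, hx, hpx, hcomp⟩ := step h3 F T hTF hTc hTb
    have hsub : badsets (insert x F) ⊆ (badsets F).erase T := by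
      intro U hU
      simp only [badsets, Finset.mem_filter, Finset.mem_powersetCard, Finset.coe_insert] at hU
      obtain ⟨⟨hUF, hUc⟩, hUb⟩ := hU
      have hxU : x ∉ U := by
        intro hxU
        have hcard : (U.erase x).card = 3 := by
          rw [Finset.card_erase_of_mem hxU, hUc]
        have hna : ¬ IsAntichain (· ≤ ·) ((U.erase x : Finset X) : Set X) := fun h => by
          have := hw _ h
          omega
        simp only [IsAntichain, Set.Pairwise, not_forall, Pi.compl_apply, compl_iff_not,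
          not_not] at hna
        obtain ⟨a, ha, b, hb, hne, hle⟩ := hna
        have ha' := Finset.mem_erase.1 (Finset.mem_coe.1 ha)
        have hb' := Finset.mem_erase.1 (Finset.mem_coe.1 hb)
        have haF : a ∈ F := by
          rcases Finset.mem_insert.1 (hUF ha'.2) with h | h
          · exact absurd h ha'.1
          · exact h
        have hbF : b ∈ F := by
          rcases Finset.mem_insert.1 (hUF hb'.2) with h | h
          · exact absurd h hb'.1
          · exact h
        have hab : a < b := lt_of_le_of_ne hle hne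
        rcases hcomp b hbF with hbx | hbx
        · exact hUb (chain3 (Finset.mem_coe.2 ha'.2) (Finset.mem_coe.2 hb'.2) (Finset.mem_coe.2 hxU)
            (mem_insert_of_mem _ hbF) hab hbx)
        · rcases hcomp a haF with hax | hax
          · exact hUb (chain3 (Finset.mem_coe.2 ha'.2) (Finset.mem_coe.2 hxU)
              (Finset.mem_coe.2 hb'.2) (mem_insert _ _) hax hbx)
          · exact hUb (chain3 (Finset.mem_coe.2 hxU) (Finset.mem_coe.2 ha'.2)
              (Finset.mem_coe.2 hb'.2) (mem_insert_of_mem _ haF) hax hab)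
      have hUF' : U ⊆ F := by
        intro y hy
        rcases Finset.mem_insert.1 (hUF hy) with h | h
        · exact absurd (h ▸ hy) hxU
        · exact h
      refine Finset.mem_erase.2 ⟨?_, ?_⟩
      · rintro rfl
        exact hUb hpx
      · simp only [badsets, Finset.mem_filter, Finset.mem_powersetCard]
        exact ⟨⟨hUF', hUc⟩, fun h => hUb (h.mono_left (subset_insert _ _))⟩
    have hcard : (badsets (insert x F)).card ≤ n := by
      have h1 := Finset.card_le_card hsub
      rw [Finset.card_erase_of_mem hT] at h1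
      omega
    obtain ⟨G, hG, hG'⟩ := ih (insert x F) hcard
    exact ⟨G, (Finset.subset_insert _ _).trans hG, hG'⟩

lemma part_univ {n : ℕ} (h : helly (univ : Set X) = n) (S : Finset X) (hS : n < S.card) :
    PartitionableIn (univ : Set X) (S : Set X) := by
  by_contra hp
  have h1 := le_helly (subset_univ _) hp
  rw [h, Set.encard_coe_eq_coe_finsetCard] at h1
  have h2 : S.card ≤ n := by exact_mod_cast h1
  omega

/-- the case `h(X) = 3` of width two -/
theorem three_case (hw : ∀ A : Finset X, IsAntichain (· ≤ ·) (A : Set X) → A.card ≤ 2)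
    (h : helly (univ : Set X) = (3 : ℕ)) (E : Finset X) :
    ∃ F : Finset X, E ⊆ F ∧ helly (F : Set X) = helly (univ : Set X) := by
  classical
  obtain ⟨S, -, hp, hc⟩ := attained h
  have h3 : ∀ S : Finset X, S.card = 4 → PartitionableIn (univ : Set X) (S : Set X) :=
    fun S hS => part_univ h S (by omega)
  obtain ⟨G, hG, hb⟩ := badsets_insert h3 hw _ (E ∪ S) le_rfl
  refine ⟨G, Finset.subset_union_left.trans hG, ?_⟩
  rw [h]
  apply le_antisymm
  · apply helly_le
    intro T hT hcard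
    by_contra hp'
    have : T ∈ badsets G := by
      simp only [badsets, Finset.mem_filter, Finset.mem_powersetCard]
      exact ⟨⟨by exact_mod_cast hT, hcard⟩, hp'⟩
    rw [hb] at this
    simp at this
  · exact lower S hp hc (by exact_mod_cast Finset.subset_union_right.trans hG)

/-- the case `h(X) ≤ 2` -/
theorem small_case {n : ℕ} (hn : n ≤ 2) (h : helly (univ : Set X) = n) (E : Finset X) :
    ∃ F : Finset X, E ⊆ F ∧ helly (F : Set X) = helly (univ : Set X) := by
  classical
  obtain ⟨S, -, hp, hc⟩ := attained h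
  refine ⟨E ∪ S, Finset.subset_union_left, ?_⟩
  rw [h]
  apply le_antisymm
  · apply helly_le
    intro T hT hcard
    obtain ⟨x, -, ⟨s₁, h1, s₂, h2, hs, h4, h5⟩, t₁, g1, t₂, g2, ht, g4, g5⟩ :=
      part_univ h T (by omega)
    have hxT : x ∈ (T : Set X) := by
      by_contra hx
      have e1 : s₁ ≠ t₁ := by rintro rfl; exact hx (le_antisymm h4 g4 ▸ h1)
      have e2 : s₁ ≠ t₂ := by rintro rfl; exact hx (le_antisymm h4 g5 ▸ h1)
      have e3 : s₂ ≠ t₁ := by rintro rfl; exact hx (le_antisymm h5 g4 ▸ h2)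
      have e4 : s₂ ≠ t₂ := by rintro rfl; exact hx (le_antisymm h5 g5 ▸ h2)
      have hsub : ({s₁, s₂, t₁, t₂} : Finset X) ⊆ T := by
        intro y hy
        simp only [Finset.mem_insert, Finset.mem_singleton] at hy
        rcases hy with rfl | rfl | rfl | rfl
        · exact h1
        · exact h2
        · exact g1
        · exact g2
      have hc4 : ({s₁, s₂, t₁, t₂} : Finset X).card = 4 := by
        rw [Finset.card_insert_of_notMem, Finset.card_insert_of_notMem,
          Finset.card_insert_of_notMem, Finset.card_singleton] <;> simp [*]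
      have := Finset.card_le_card hsub
      omega
    exact ⟨x, hT hxT, ⟨s₁, h1, s₂, h2, hs, h4, h5⟩, t₁, g1, t₂, g2, ht, g4, g5⟩
  · exact lower S hp hc (by simp)

/-- width at most two -/
theorem width_two (hw : ∀ A : Finset X, IsAntichain (· ≤ ·) (A : Set X) → A.card ≤ 2)
    (E : Finset X) : ∃ F : Finset X, E ⊆ F ∧ helly (F : Set X) = helly (univ : Set X) := by
  have h4 : helly (univ : Set X) ≤ (4 : ℕ) := by
    apply helly_le
    intro S hS hcard
    by_contra hp
    have := card_le hw S hS hp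
    omega
  obtain ⟨n, hn⟩ := ENat.ne_top_iff_exists.1 (ne_top_of_le_ne_top (ENat.coe_ne_top 4) h4)
  have hn4 : n ≤ 4 := by
    rw [← hn] at h4
    exact_mod_cast h4
  by_cases h2 : n ≤ 2
  · exact small_case h2 hn.symm E
  by_cases h3 : n = 3
  · subst h3
    exact three_case hw hn.symm E
  · have : n = 4 := by omega
    subst this
    exact maximal_case hw (by rw [← hn]) E

/-- an infinite poset with `h(X) ≤ 3` has width at most two -/
theorem width_of_le_three [Infinite X] (h : helly (univ : Set X) ≤ 3) (A : Finset X)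
    (hA : IsAntichain (· ≤ ·) (A : Set X)) : A.card ≤ 2 := by
  classical
  by_contra hc
  obtain ⟨B, hB, hBc⟩ := Finset.exists_subset_card_eq (s := A) (n := 3) (by omega)
  obtain ⟨p, q, r, hpq, hpr, hqr, rfl⟩ := Finset.card_eq_three.1 hBc
  have hp : p ∈ (A : Set X) := hB (by simp)
  have hq : q ∈ (A : Set X) := hB (by simp)
  have hr : r ∈ (A : Set X) := hB (by simp)
  obtain ⟨s, hs⟩ := Infinite.exists_notMem_finset ({p, q, r} : Finset X)
  simp only [Finset.mem_insert, Finset.mem_singleton, not_or] at hs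
  have hnp := anti4 (s := s) ⟨hA hp hq hpq, hA hq hp hpq.symm⟩ ⟨hA hq hr hqr, hA hr hq hqr.symm⟩
    ⟨hA hp hr hpr, hA hr hp hpr.symm⟩
  have h1 := le_helly (subset_univ _) hnp
  have h4 : ({p, q, r, s} : Set X).encard = (4 : ℕ) := by
    have hc4 : ({p, q, r, s} : Finset X).card = 4 := by
      rw [Finset.card_insert_of_notMem, Finset.card_insert_of_notMem,
        Finset.card_insert_of_notMem, Finset.card_singleton] <;>
        simp [hpq, hpr, hqr, Ne.symm hs.1, Ne.symm hs.2.1, Ne.symm hs.2.2]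
    rw [← hc4, ← Set.encard_coe_eq_coe_finsetCard]
    simp
  rw [h4] at h1
  have h5 : ((4 : ℕ) : ℕ∞) ≤ 3 := h1.trans h
  exact absurd h5 (by decide)

/-- **Main theorem.** For an infinite poset `X` every finite `E` lies in a finite `F` with
`h(F) = h(X)` in each of the following cases: (1) `X` has no antichain of three elements;
(2) `h(X) ≤ 3`; (3) for some `w`, `X` has no antichain of `w + 1` elements and `h(X) = 2 w`. -/
theorem result :
    (∀ (X : Type u) [PartialOrder X] [Infinite X],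
      (∀ A : Finset X, IsAntichain (· ≤ ·) (A : Set X) → A.card ≤ 2) →
      ∀ E : Finset X, ∃ F : Finset X, E ⊆ F ∧ helly (F : Set X) = helly (univ : Set X)) ∧
    (∀ (X : Type u) [PartialOrder X] [Infinite X], helly (univ : Set X) ≤ 3 →
      ∀ E : Finset X, ∃ F : Finset X, E ⊆ F ∧ helly (F : Set X) = helly (univ : Set X)) ∧
    (∀ (X : Type u) [PartialOrder X] [Infinite X] (w : ℕ),
      (∀ A : Finset X, IsAntichain (· ≤ ·) (A : Set X) → A.card ≤ w) →
      helly (univ : Set X) = (2 * w : ℕ) →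
      ∀ E : Finset X, ∃ F : Finset X, E ⊆ F ∧ helly (F : Set X) = helly (univ : Set X)) :=
  ⟨fun _ _ _ hw E => width_two hw E, fun _ _ _ h E => width_two (width_of_le_three h) E,
    fun _ _ _ _ hw h E => maximal_case hw h E⟩

end Pool.Agent.Results.MP_0878ad_co.WidthTwo
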